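import Pool.Agent.TH133.SH.GenMain

/-!
# Homomorphisms on `Γ₀(N)` vanishing on parabolic elements, on conjugacy classes
-/

open Matrix Matrix.SpecialLinearGroup MatrixGroups ModularGroup

namespace Pool.Agent.Q213.SM

open Pool.Agent.TH133.SH

variable {N : ℕ} {φ : SL(2, ℤ) → ℝ}

/-- The trace. -/
def tr (g : SL(2, ℤ)) : ℤ := g 0 0 + g 1 1

lemma tr_mul_comm (g h : SL(2, ℤ)) : tr (g * h) = tr (h * g) := by
  unfold tr
  rw [mul00, mul11, mul00, mul11]
  ring

lemma tr_conj (g h : SL(2, ℤ)) : tr (h * g * h⁻¹) = tr g := by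
  rw [tr_mul_comm, ← mul_assoc, inv_mul_cancel, one_mul]

lemma map_inv (h : IsCuspHom N φ) {g : SL(2, ℤ)} (hg : InG N g) : φ g⁻¹ = -φ g := by
  have h1 := h.map_mul g g⁻¹ hg hg.inv
  rw [mul_inv_cancel, h.one] at h1
  linarith

lemma map_conj (h : IsCuspHom N φ) {g k : SL(2, ℤ)} (hg : InG N g) (hk : InG N k) :
    φ (k * g * k⁻¹) = φ g := by
  rw [h.map_mul _ _ (hk.mul hg) hk.inv, h.map_mul _ _ hk hg, map_inv h hk]
  ring

/-- The homomorphism vanishes on elliptic and parabolic elements. -/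
lemma zero_of_tr (h : IsCuspHom N φ) {g : SL(2, ℤ)} (hg : InG N g) (ht : |tr g| ≤ 2) :
    φ g = 0 := by
  have hdet := det_eq g
  have ht' := abs_le.1 ht
  have e2 : tr (g * g) = tr g ^ 2 - 2 := by
    unfold tr
    rw [mul00, mul11]
    linear_combination (-2) * hdet
  have e3 : tr (g * g * g) = tr g ^ 3 - 3 * tr g := by
    unfold tr
    rw [mul00, mul11, mul00, mul01, mul10, mul11]
    linear_combination (-3 * (g 0 0 + g 1 1)) * hdet
  have hcases : tr g = -2 ∨ tr g = -1 ∨ tr g = 0 ∨ tr g = 1 ∨ tr g = 2 := by omega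
  rcases hcases with h1 | h1 | h1 | h1 | h1
  · exact h.parabolic g hg (by change tr g ^ 2 = 4; rw [h1]; norm_num)
  · have h2 := h.parabolic (g * g * g) ((hg.mul hg).mul hg)
      (by change tr (g * g * g) ^ 2 = 4; rw [e3, h1]; norm_num)
    rw [h.map_mul _ _ (hg.mul hg) hg, h.map_mul _ _ hg hg] at h2
    linarith
  · have h2 := h.parabolic (g * g) (hg.mul hg)
      (by change tr (g * g) ^ 2 = 4; rw [e2, h1]; norm_num)
    rw [h.map_mul _ _ hg hg] at h2
    linarith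
  · have h2 := h.parabolic (g * g * g) ((hg.mul hg).mul hg)
      (by change tr (g * g * g) ^ 2 = 4; rw [e3, h1]; norm_num)
    rw [h.map_mul _ _ (hg.mul hg) hg, h.map_mul _ _ hg hg] at h2
    linarith
  · exact h.parabolic g hg (by change tr g ^ 2 = 4; rw [h1]; norm_num)

lemma conj_T (g : SL(2, ℤ)) (k : ℤ) :
    (T ^ k * g * (T ^ k)⁻¹) 0 0 = g 0 0 + k * g 1 0 ∧
    (T ^ k * g * (T ^ k)⁻¹) 0 1 = g 0 1 + k * g 1 1 - k * g 0 0 - k ^ 2 * g 1 0 ∧
    (T ^ k * g * (T ^ k)⁻¹) 1 0 = g 1 0 ∧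
    (T ^ k * g * (T ^ k)⁻¹) 1 1 = g 1 1 - k * g 1 0 := by
  have ht := T_pow k
  refine ⟨?_, ?_, ?_, ?_⟩
  · rw [mul00, mul00, mul01, inv00, inv10, ht.1, ht.2.1, ht.2.2.1, ht.2.2.2]
    ring
  · rw [mul01, mul00, mul01, inv01, inv11, ht.1, ht.2.1]
    ring
  · rw [mul10, mul10, mul11, inv00, inv10, ht.2.2.1, ht.2.2.2]
    ring
  · rw [mul11, mul10, mul11, inv01, inv11, ht.1, ht.2.1, ht.2.2.1, ht.2.2.2]
    ring

lemma conj_S (g : SL(2, ℤ)) :
    (S * g * S⁻¹) 0 0 = g 1 1 ∧ (S * g * S⁻¹) 0 1 = -g 1 0 ∧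
    (S * g * S⁻¹) 1 0 = -g 0 1 ∧ (S * g * S⁻¹) 1 1 = g 0 0 := by
  have hs := S_ent
  refine ⟨?_, ?_, ?_, ?_⟩
  · rw [mul00, mul00, mul01, inv00, inv10, hs.1, hs.2.1, hs.2.2.1, hs.2.2.2]
    ring
  · rw [mul01, mul00, mul01, inv01, inv11, hs.1, hs.2.1]
    ring
  · rw [mul10, mul10, mul11, inv00, inv10, hs.2.2.1, hs.2.2.2]
    ring
  · rw [mul11, mul10, mul11, inv01, inv11, hs.1, hs.2.1, hs.2.2.1, hs.2.2.2]
    ring

/-- Reduction theory: a hyperbolic element is conjugate in the modular group to an element with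
entries bounded by the square of the trace. -/
lemma exists_reduced (n : ℕ) : ∀ g : SL(2, ℤ), (g 1 0).natAbs ≤ n → 3 ≤ |tr g| →
    ∃ k : SL(2, ℤ), ∀ i j, |(k * g * k⁻¹) i j| ≤ tr g ^ 2 := by
  induction n using Nat.strong_induction_on with
  | _ n ih =>
    intro g hn ht
    have hc : g 1 0 ≠ 0 := by
      intro hc
      have h1 := det_eq g
      rw [hc, mul_zero, sub_zero] at h1
      rcases Int.eq_one_or_neg_one_of_mul_eq_one h1 with h2 | h2
      · rw [h2, one_mul] at h1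
        unfold tr at ht
        rw [h2, h1] at ht
        norm_num at ht
      · rw [h2] at h1
        have h3 : g 1 1 = -1 := by linarith
        unfold tr at ht
        rw [h2, h3] at ht
        norm_num at ht
    obtain ⟨k, hk⟩ := exists_near (g 0 0 - g 1 1) (2 * g 1 0) (by simpa using hc)
    set g' := T ^ k * g * (T ^ k)⁻¹ with hg'
    obtain ⟨e00, e01, e10, e11⟩ := conj_T g k
    rw [← hg'] at e00 e01 e10 e11
    have htr : tr g' = tr g := tr_conj g _
    have hk' : |g' 0 0 - g' 1 1| ≤ |g' 1 0| := by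
      rw [abs_mul, abs_two] at hk
      have : g' 0 0 - g' 1 1 = g 0 0 - g 1 1 + k * (2 * g 1 0) := by rw [e00, e11]; ring
      rw [this, e10]
      linarith
    by_cases hb : |g' 0 1| < |g' 1 0|
    · obtain ⟨f00, f01, f10, f11⟩ := conj_S g'
      have h1 : ((S * g' * S⁻¹) 1 0).natAbs < n := by
        rw [f10, Int.natAbs_neg]
        have h2 : (g' 0 1).natAbs < (g' 1 0).natAbs := by
          rw [Int.abs_eq_natAbs, Int.abs_eq_natAbs] at hb
          exact_mod_cast hb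
        rw [e10] at h2
        omega
      obtain ⟨l, hl⟩ := ih _ h1 (S * g' * S⁻¹) le_rfl (by rw [tr_conj, htr]; exact ht)
      refine ⟨l * S * T ^ k, ?_⟩
      have e1 : l * S * T ^ k * g * (l * S * T ^ k)⁻¹ = l * (S * g' * S⁻¹) * l⁻¹ := by
        rw [hg']; group
      rw [e1]
      rw [tr_conj, htr] at hl
      exact hl
    · refine ⟨T ^ k, ?_⟩
      rw [← hg', ← htr]
      rw [← htr] at ht
      have hc' : g' 1 0 ≠ 0 := by rw [e10]; exact hc
      push Not at hb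
      have hdet := det_eq g'
      have hc1 : 1 ≤ |g' 1 0| := Int.one_le_abs hc'
      have hD : (g' 0 0 - g' 1 1) ^ 2 + 4 * (g' 0 1 * g' 1 0) = tr g' ^ 2 - 4 := by
        unfold tr
        linear_combination (-4) * hdet
      have ht9 : 9 ≤ tr g' ^ 2 := by
        rw [← sq_abs]
        have := mul_self_le_mul_self (by norm_num) ht
        linarith
      have hsq : (g' 0 0 - g' 1 1) ^ 2 ≤ |g' 1 0| ^ 2 := by
        rw [← sq_abs (g' 0 0 - g' 1 1)]
        exact pow_le_pow_left₀ (abs_nonneg _) hk' 2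
      have hbc : |g' 1 0| ^ 2 ≤ |g' 0 1 * g' 1 0| := by
        rw [abs_mul, sq]
        exact mul_le_mul_of_nonneg_right hb (abs_nonneg _)
      have hpos : 0 ≤ g' 0 1 * g' 1 0 := by
        by_contra hneg
        push Not at hneg
        rw [abs_of_neg hneg] at hbc
        linarith
      rw [abs_of_nonneg hpos] at hbc
      have hbc4 : 4 * (g' 0 1 * g' 1 0) ≤ tr g' ^ 2 - 4 := by linarith [sq_nonneg (g' 0 0 - g' 1 1)]
      have hbabs : |g' 0 1| * |g' 1 0| = g' 0 1 * g' 1 0 := by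
        rw [← abs_mul, abs_of_nonneg hpos]
      have hb0 := abs_nonneg (g' 0 1)
      have hprod : |g' 0 1| ≤ |g' 0 1| * |g' 1 0| := le_mul_of_one_le_right hb0 hc1
      have hbt : |g' 0 1| ≤ tr g' ^ 2 := by linarith
      have hct : |g' 1 0| ≤ tr g' ^ 2 := by linarith
      have hts : |tr g'| * 3 ≤ tr g' ^ 2 := by
        rw [← sq_abs, sq]
        exact mul_le_mul_of_nonneg_left ht (abs_nonneg _)
      have hcc : 2 * |g' 1 0| ≤ |tr g'| := by
        have h4 : (2 * |g' 1 0|) ^ 2 ≤ |tr g'| ^ 2 := by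
          rw [sq_abs, mul_pow]
          linarith
        exact (pow_le_pow_iff_left₀ (by positivity) (abs_nonneg _) two_ne_zero).1 h4
      have h00 : |g' 0 0| ≤ tr g' ^ 2 := by
        have h5 : 2 * g' 0 0 = tr g' + (g' 0 0 - g' 1 1) := by unfold tr; ring
        have h6 : |2 * g' 0 0| ≤ |tr g'| + |g' 0 0 - g' 1 1| := by rw [h5]; exact abs_add_le _ _
        rw [abs_mul, abs_two] at h6
        have := abs_nonneg (tr g')
        linarith
      have h11 : |g' 1 1| ≤ tr g' ^ 2 := by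
        have h5 : 2 * g' 1 1 = tr g' - (g' 0 0 - g' 1 1) := by unfold tr; ring
        have h6 : |2 * g' 1 1| ≤ |tr g'| + |g' 0 0 - g' 1 1| := by rw [h5]; exact abs_sub _ _
        rw [abs_mul, abs_two] at h6
        have := abs_nonneg (tr g')
        linarith
      intro i j
      fin_cases i <;> fin_cases j
      · exact h00
      · exact hbt
      · exact hct
      · exact h11

/-- The value on a hyperbolic element is the value on an element with lower left entry at most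
`(N tr) ^ 2`. -/
lemma exists_small_conj (hN : 2 ≤ N) (h : IsCuspHom N φ) {g : SL(2, ℤ)} (hg : InG N g)
    (ht : 3 ≤ |tr g|) : ∃ g' : SL(2, ℤ), InG N g' ∧ φ g' = φ g ∧ tr g' = tr g ∧
      |g' 1 0| ≤ (N : ℤ) ^ 2 * tr g ^ 2 := by
  obtain ⟨k, hk⟩ := exists_reduced _ g le_rfl ht
  set ρ := k * g * k⁻¹ with hρ
  obtain ⟨r, hr, hG⟩ := exists_small hN k⁻¹
  set m := k⁻¹ * r⁻¹ with hm
  have e1 : r * ρ * r⁻¹ = m⁻¹ * g * m⁻¹⁻¹ := by
    rw [hρ, hm]; group
  refine ⟨r * ρ * r⁻¹, ?_, ?_, ?_, ?_⟩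
  · rw [e1]
    exact (hG.inv.mul hg).mul hG.inv.inv
  · rw [e1]
    exact map_conj h hg hG.inv
  · rw [e1]
    exact tr_conj _ _
  · rw [mul10, mul10, mul11, inv00, inv10]
    have e2 : (r 1 0 * ρ 0 0 + r 1 1 * ρ 1 0) * r 1 1 + (r 1 0 * ρ 0 1 + r 1 1 * ρ 1 1) * -r 1 0 =
      (r 1 0 * r 1 1) * ρ 0 0 + (r 1 1 * r 1 1) * ρ 1 0 - (r 1 0 * r 1 0) * ρ 0 1 -
        (r 1 1 * r 1 0) * ρ 1 1 := by ring
    rw [e2]
    have hu := hr.1
    have hv := hr.2
    have hu0 := abs_nonneg (r 1 0)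
    have hv0 := abs_nonneg (r 1 1)
    have hT : 0 ≤ tr g ^ 2 := sq_nonneg _
    have hb : ∀ x y z : ℤ, 2 * |x| ≤ N → 2 * |y| ≤ N → |z| ≤ tr g ^ 2 →
        4 * |x * y * z| ≤ (N : ℤ) ^ 2 * tr g ^ 2 := by
      intro x y z hx hy hz
      rw [abs_mul, abs_mul]
      have hx0 := abs_nonneg x
      have hy0 := abs_nonneg y
      have hz0 := abs_nonneg z
      have h1 : (2 * |x|) * (2 * |y|) ≤ (N : ℤ) * N :=
        mul_le_mul hx hy (by positivity) (by positivity)
      calc 4 * (|x| * |y| * |z|) = ((2 * |x|) * (2 * |y|)) * |z| := by ring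
        _ ≤ ((N : ℤ) * N) * tr g ^ 2 := mul_le_mul h1 hz hz0 (by positivity)
        _ = (N : ℤ) ^ 2 * tr g ^ 2 := by ring
    have b1 := hb _ _ _ hu hv (hk 0 0)
    have b2 := hb _ _ _ hv hv (hk 1 0)
    have b3 := hb _ _ _ hu hu (hk 0 1)
    have b4 := hb _ _ _ hv hu (hk 1 1)
    have a1 := abs_sub (r 1 0 * r 1 1 * ρ 0 0 + r 1 1 * r 1 1 * ρ 1 0 - r 1 0 * r 1 0 * ρ 0 1)
      (r 1 1 * r 1 0 * ρ 1 1)
    have a2 := abs_sub (r 1 0 * r 1 1 * ρ 0 0 + r 1 1 * r 1 1 * ρ 1 0) (r 1 0 * r 1 0 * ρ 0 1)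
    have a3 := abs_add_le (r 1 0 * r 1 1 * ρ 0 0) (r 1 1 * r 1 1 * ρ 1 0)
    linarith

/-- Logarithmic growth in the lower left entry gives a bound by the length of the closed geodesic. -/
lemma length_growth (hN : 1 ≤ N) (h : IsCuspHom N φ) {K : ℝ} (hK0 : 0 ≤ K)
    (hK : ∀ g : SL(2, ℤ), InG N g → g 1 0 ≠ 0 → |φ g| ≤ K * (1 + Real.log |((g 1 0 : ℤ) : ℝ)|))
    {g : SL(2, ℤ)} (hg : InG N g) (ht : 3 ≤ |tr g|) :
    |φ g| ≤ K * (5 * N * Real.log |((tr g : ℤ) : ℝ)|) := by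
  have hN1 : (1 : ℝ) ≤ N := by exact_mod_cast hN
  have hN0 : (0 : ℝ) < N := by linarith
  have ht' : (3 : ℝ) ≤ |((tr g : ℤ) : ℝ)| := by exact_mod_cast ht
  have hlog : 1 ≤ Real.log |((tr g : ℤ) : ℝ)| := by
    rw [← Real.log_exp 1]
    apply Real.log_le_log (Real.exp_pos _)
    have := Real.exp_one_lt_d9
    linarith
  rcases Nat.lt_or_ge N 2 with h2 | h2
  · obtain rfl : N = 1 := by omega
    rw [level_one h g, abs_zero]
    positivity
  · obtain ⟨g', hG, hφ, htr, hc⟩ := exists_small_conj h2 h hg ht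
    rw [← hφ]
    by_cases h0 : g' 1 0 = 0
    · rw [h.zero_of_lower h0, abs_zero]
      positivity
    · refine (hK g' hG h0).trans (mul_le_mul_of_nonneg_left ?_ hK0)
      have h3 : |((g' 1 0 : ℤ) : ℝ)| ≤ (N : ℝ) ^ 2 * |((tr g : ℤ) : ℝ)| ^ 2 := by
        rw [sq_abs]
        exact_mod_cast hc
      have h4 : 0 < |((g' 1 0 : ℤ) : ℝ)| := by
        rw [abs_pos]
        exact_mod_cast h0
      have h5 := Real.log_le_log h4 h3
      rw [Real.log_mul (by positivity) (by positivity), Real.log_pow, Real.log_pow] at h5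
      have h6 := Real.log_le_self hN0.le
      have h7 : Real.log N ≤ N := h6
      push_cast at h5
      nlinarith

end Pool.Agent.Q213.SM
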