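import Pool.Agent.Q213.SM.Geo
import Mathlib.NumberTheory.LSeries.PrimesInAP

/-!
# The Shimura map: large matrices in arbitrary subgroups of finite index suffice
-/

open Complex Matrix Matrix.SpecialLinearGroup MatrixGroups ModularGroup

namespace Pool.Agent.Q213.SM

open Pool.Agent.TH133.SH

variable {N : ℕ} {φ : SL(2, ℤ) → ℝ}

lemma inG_pow {g : SL(2, ℤ)} (hg : InG N g) (k : ℕ) : InG N (g ^ k) := by
  induction k with
  | zero => rw [pow_zero]; exact inG_one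
  | succ k ih => rw [pow_succ]; exact ih.mul hg

lemma map_pow (h : IsCuspHom N φ) {g : SL(2, ℤ)} (hg : InG N g) (k : ℕ) :
    φ (g ^ k) = k * φ g := by
  induction k with
  | zero => rw [pow_zero, h.one]; simp
  | succ k ih =>
    rw [pow_succ, h.map_mul _ _ (inG_pow hg k) hg, ih]
    push_cast
    ring

lemma sq_ent (g : SL(2, ℤ)) : (g * g) 0 0 = tr g * g 0 0 - 1 ∧ (g * g) 0 1 = tr g * g 0 1 ∧
    (g * g) 1 0 = tr g * g 1 0 ∧ (g * g) 1 1 = tr g * g 1 1 - 1 := by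
  have hdet := det_eq g
  unfold tr
  refine ⟨?_, ?_, ?_, ?_⟩
  · rw [mul00]; linear_combination (-1) * hdet
  · rw [mul01]; ring
  · rw [mul10]; ring
  · rw [mul11]; linear_combination (-1) * hdet

lemma pow_rec10 (g : SL(2, ℤ)) (k : ℕ) :
    (g ^ (k + 2)) 1 0 = tr g * (g ^ (k + 1)) 1 0 - (g ^ k) 1 0 := by
  have h := sq_ent g
  have e1 : g ^ (k + 2) = g ^ k * (g * g) := by rw [pow_add, pow_two]
  have e2 : g ^ (k + 1) = g ^ k * g := pow_succ g k
  rw [e1, e2, mul10 (g ^ k) (g * g), mul10 (g ^ k) g, h.1, h.2.2.1]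
  ring

lemma pow_recT (g : SL(2, ℤ)) (k : ℕ) :
    tr (g ^ (k + 2)) = tr g * tr (g ^ (k + 1)) - tr (g ^ k) := by
  have h := sq_ent g
  have e1 : g ^ (k + 2) = g ^ k * (g * g) := by rw [pow_add, pow_two]
  have e2 : g ^ (k + 1) = g ^ k * g := pow_succ g k
  rw [e1, e2]
  unfold tr at h ⊢
  rw [mul00 (g ^ k) (g * g), mul11 (g ^ k) (g * g), h.1, h.2.1, h.2.2.1, h.2.2.2, mul00, mul11]
  ring

/-- Growth of a sequence with this recurrence. -/
lemma rec_growth {t : ℤ} (ht : 3 ≤ |t|) {u : ℕ → ℤ} (hrec : ∀ k, u (k + 2) = t * u (k + 1) - u k)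
    {X : ℤ} (h0 : |u 0| + 1 ≤ |u 1|) (hX0 : |u 0| ≤ X) (hX1 : |u 1| ≤ X * (2 * |t|)) (k : ℕ) :
    (|u k| + 1 ≤ |u (k + 1)|) ∧ |u k| ≤ X * (2 * |t|) ^ k ∧
      |u (k + 1)| ≤ X * (2 * |t|) ^ (k + 1) := by
  induction k with
  | zero =>
    refine ⟨h0, ?_, ?_⟩
    · rw [pow_zero, mul_one]; exact hX0
    · rw [zero_add, pow_one]; exact hX1
  | succ k ih =>
    obtain ⟨i1, i2, i3⟩ := ih
    have hu0 := abs_nonneg (u k)
    refine ⟨?_, i3, ?_⟩
    · rw [hrec k]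
      have h1 : |t| * |u (k + 1)| - |u k| ≤ |t * u (k + 1) - u k| := by
        rw [← abs_mul]
        exact abs_sub_abs_le_abs_sub _ _
      have h2 : 3 * |u (k + 1)| ≤ |t| * |u (k + 1)| :=
        mul_le_mul_of_nonneg_right ht (abs_nonneg _)
      linarith
    · rw [hrec k]
      have hX : 0 ≤ X := (abs_nonneg _).trans hX0
      have h1 : |t * u (k + 1) - u k| ≤ |t| * |u (k + 1)| + |u k| := by
        rw [← abs_mul]
        exact abs_sub _ _
      have ht0 : 0 < |t| := by linarith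
      have hp : 0 ≤ X * (2 * |t|) ^ k := by positivity
      have h2 : |t| * |u (k + 1)| ≤ |t| * (X * (2 * |t|) ^ (k + 1)) :=
        mul_le_mul_of_nonneg_left i3 (abs_nonneg _)
      have h3 : X * (2 * |t|) ^ (k + 1 + 1) =
          |t| * (X * (2 * |t|) ^ (k + 1)) + (2 * |t| ^ 2) * (X * (2 * |t|) ^ k) := by ring
      have h4 : X * (2 * |t|) ^ k ≤ (2 * |t| ^ 2) * (X * (2 * |t|) ^ k) := by
        apply le_mul_of_one_le_left hp
        nlinarith
      linarith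

lemma rec_lower {t : ℤ} (ht : 3 ≤ |t|) {u : ℕ → ℤ} (hrec : ∀ k, u (k + 2) = t * u (k + 1) - u k)
    {X : ℤ} (h0 : |u 0| + 1 ≤ |u 1|) (hX0 : |u 0| ≤ X) (hX1 : |u 1| ≤ X * (2 * |t|)) (k : ℕ) :
    (k : ℤ) ≤ |u k| := by
  induction k with
  | zero => exact_mod_cast abs_nonneg _
  | succ k ih =>
    have := (rec_growth ht hrec h0 hX0 hX1 k).1
    push_cast
    linarith

lemma pow_c {g : SL(2, ℤ)} (ht : 3 ≤ |tr g|) (hc : g 1 0 ≠ 0) (k : ℕ) :
    (k : ℤ) ≤ |(g ^ k) 1 0| ∧ |(g ^ k) 1 0| ≤ |g 1 0| * (2 * |tr g|) ^ k := by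
  have hc1 : 1 ≤ |g 1 0| := Int.one_le_abs hc
  have h0 : (g ^ 0) 1 0 = 0 := by simp
  have h1 : (g ^ 1) 1 0 = g 1 0 := by rw [pow_one]
  have ha : |(g ^ 0) 1 0| + 1 ≤ |(g ^ 1) 1 0| := by rw [h0, h1, abs_zero]; linarith
  have hb : |(g ^ 0) 1 0| ≤ |g 1 0| := by rw [h0, abs_zero]; linarith
  have hd : |(g ^ 1) 1 0| ≤ |g 1 0| * (2 * |tr g|) := by
    rw [h1]
    apply le_mul_of_one_le_right (abs_nonneg _)
    linarith
  exact ⟨rec_lower ht (u := fun k => (g ^ k) 1 0) (pow_rec10 g) ha hb hd k,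
    (rec_growth ht (u := fun k => (g ^ k) 1 0) (pow_rec10 g) ha hb hd k).2.1⟩

lemma pow_tr {g : SL(2, ℤ)} (ht : 3 ≤ |tr g|) (k : ℕ) :
    (k : ℤ) ≤ |tr (g ^ k)| ∧ |tr (g ^ k)| ≤ 2 * (2 * |tr g|) ^ k ∧ (1 ≤ k → 3 ≤ |tr (g ^ k)|) := by
  have h0 : tr (g ^ 0) = 2 := by unfold tr; simp
  have h1 : tr (g ^ 1) = tr g := by rw [pow_one]
  have ha : |tr (g ^ 0)| + 1 ≤ |tr (g ^ 1)| := by rw [h0, h1, abs_two]; linarith
  have hb : |tr (g ^ 0)| ≤ 2 := by rw [h0, abs_two]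
  have hd : |tr (g ^ 1)| ≤ 2 * (2 * |tr g|) := by
    rw [h1]
    linarith
  refine ⟨rec_lower ht (u := fun k => tr (g ^ k)) (pow_recT g) ha hb hd k,
    (rec_growth ht (u := fun k => tr (g ^ k)) (pow_recT g) ha hb hd k).2.1, ?_⟩
  intro hk
  induction k, hk using Nat.le_induction with
  | base => rw [h1]; exact ht
  | succ k _ ih =>
    have := (rec_growth ht (u := fun k => tr (g ^ k)) (pow_recT g) ha hb hd k).1
    linarith

/-- Powers in a subgroup of finite index, with diagonal entries prime to `m` times the lower left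
entry, where `T ^ m` lies in the subgroup. -/
lemma exists_pow (Δ : Subgroup SL(2, ℤ)) [Δ.FiniteIndex] (g : SL(2, ℤ)) :
    ∃ m : ℕ, 0 < m ∧ T ^ m ∈ Δ ∧ ∃ n : ℕ, 0 < n ∧ ∀ j : ℕ, g ^ (n * j) ∈ Δ ∧
      (m : ℤ) ∣ (g ^ (n * j)) 0 0 - 1 ∧ (m : ℤ) ∣ (g ^ (n * j)) 1 1 - 1 := by
  obtain ⟨m, hm0, -, hm⟩ := Subgroup.exists_pow_mem_of_index_ne_zero
    (Subgroup.FiniteIndex.index_ne_zero (H := Δ)) T
  have : NeZero m := ⟨hm0.ne'⟩
  let f : SL(2, ℤ) →* SL(2, ZMod m) := SpecialLinearGroup.map (Int.castRingHom (ZMod m))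
  have hfin : Finite f.range := inferInstance
  have hker : (f.ker).FiniteIndex := inferInstance
  obtain ⟨n, hn0, -, hn⟩ := Subgroup.exists_pow_mem_of_index_ne_zero
    (Subgroup.FiniteIndex.index_ne_zero (H := Δ ⊓ f.ker)) g
  refine ⟨m, hm0, hm, n, hn0, fun j => ?_⟩
  have h1 : g ^ (n * j) ∈ Δ ⊓ f.ker := by
    rw [pow_mul]
    exact Subgroup.pow_mem _ hn j
  have h2 : f (g ^ (n * j)) = 1 := h1.2
  have h3 : ∀ i, (((g ^ (n * j)) i i : ℤ) : ZMod m) = 1 := by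
    intro i
    have h4 : (f (g ^ (n * j))) i i = (((g ^ (n * j)) i i : ℤ) : ZMod m) := rfl
    rw [← h4, h2]
    simp
  refine ⟨h1.1, ?_, ?_⟩
  · rw [← ZMod.intCast_zmod_eq_zero_iff_dvd, Int.cast_sub, h3 0, Int.cast_one, sub_self]
  · rw [← ZMod.intCast_zmod_eq_zero_iff_dvd, Int.cast_sub, h3 1, Int.cast_one, sub_self]

/-- A prime in a residue class, written with an explicit quotient. -/
lemma exists_prime_shift {x c : ℤ} {m : ℕ} (hm : 0 < m) (hc : c ≠ 0) (hx : IsCoprime x c)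
    (hm1 : (m : ℤ) ∣ x - 1) : ∃ l : ℤ, 0 < x + m * l * c ∧ (x + m * l * c).natAbs.Prime := by
  have hxm : IsCoprime x (m : ℤ) := by
    obtain ⟨y, hy⟩ := hm1
    exact ⟨1, -y, by linear_combination hy⟩
  have hcop : IsCoprime x ((m * c.natAbs : ℕ) : ℤ) := by
    push_cast
    apply hxm.mul_right
    rcases abs_choice c with h | h
    · rw [h]; exact hx
    · rw [h]; exact hx.neg_right
  have hq : m * c.natAbs ≠ 0 := by
    apply mul_ne_zero hm.ne'
    exact Int.natAbs_ne_zero.2 hc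
  obtain ⟨p, -, hp, hmod⟩ := Nat.forall_exists_prime_gt_and_zmodEq 0 hq hcop
  obtain ⟨k, hk⟩ := hmod.symm.dvd
  push_cast at hk
  rcases abs_choice c with h | h
  · rw [h] at hk
    refine ⟨k, ?_, ?_⟩
    · have : x + m * k * c = p := by linear_combination (-1) * hk
      rw [this]
      exact_mod_cast hp.pos
    · have : x + m * k * c = p := by linear_combination (-1) * hk
      rw [this]
      simpa using hp
  · rw [h] at hk
    refine ⟨-k, ?_, ?_⟩
    · have : x + m * -k * c = p := by linear_combination (-1) * hk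
      rw [this]
      exact_mod_cast hp.pos
    · have : x + m * -k * c = p := by linear_combination (-1) * hk
      rw [this]
      simpa using hp

end Pool.Agent.Q213.SM
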