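import Pool.Agent.Q213.SM.Deep

/-!
# The Shimura map: large matrices in arbitrary subgroups of finite index suffice (end)
-/

open Complex Matrix Matrix.SpecialLinearGroup MatrixGroups ModularGroup

namespace Pool.Agent.Q213.SM

open Pool.Agent.TH133.SH

variable {N : ℕ} {φ : SL(2, ℤ) → ℝ}

lemma deep_entry (h : IsCuspHom N φ) (Δ : Subgroup SL(2, ℤ)) [Δ.FiniteIndex] (G : ℕ) {K : ℝ}
    (hK0 : 0 ≤ K)
    (hK : ∀ δ : SL(2, ℤ), InG N δ → δ ∈ Δ → (G : ℤ) ≤ |δ 1 0| → δ 1 0 ≠ 0 →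
      (0 < δ 0 0 ∧ (δ 0 0).natAbs.Prime) → (0 < δ 1 1 ∧ (δ 1 1).natAbs.Prime) →
      |φ δ| ≤ K * Real.log |((δ 1 0 : ℤ) : ℝ)|)
    {g : SL(2, ℤ)} (hg : InG N g) (hc : g 1 0 ≠ 0) (ht : 3 ≤ |tr g|) :
    |φ g| ≤ K * (Real.log |((g 1 0 : ℤ) : ℝ)| + Real.log (2 * |((tr g : ℤ) : ℝ)|)) := by
  obtain ⟨m, hm0, hm, n, hn0, hn⟩ := exists_pow Δ g
  obtain ⟨hΔ, hd0, hd1⟩ := hn (G + 1)
  set k := n * (G + 1) with hk
  have hkG : G + 1 ≤ k := Nat.le_mul_of_pos_left _ hn0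
  obtain ⟨hl, hu⟩ := pow_c ht hc k
  set δ := g ^ k with hδ
  have hδ0 : δ 1 0 ≠ 0 := by
    intro h0
    rw [h0, abs_zero] at hl
    have : (G : ℤ) + 1 ≤ k := by exact_mod_cast hkG
    have : (0 : ℤ) ≤ G := by positivity
    linarith
  have hdet := det_eq δ
  have hx0 : IsCoprime (δ 0 0) (δ 1 0) := ⟨δ 1 1, -δ 0 1, by linear_combination hdet⟩
  have hx1 : IsCoprime (δ 1 1) (δ 1 0) := ⟨δ 0 0, -δ 0 1, by linear_combination hdet⟩
  obtain ⟨l, hl0, hlp⟩ := exists_prime_shift hm0 hδ0 hx0 hd0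
  obtain ⟨l', hl0', hlp'⟩ := exists_prime_shift hm0 hδ0 hx1 hd1
  have htk := T_pow (m * l)
  have htl := T_pow (m * l')
  set ε := T ^ ((m : ℤ) * l) * δ * T ^ ((m : ℤ) * l') with hε
  have hδG : InG N δ := inG_pow hg k
  have hmz : ∀ z : ℤ, T ^ ((m : ℤ) * z) ∈ Δ := by
    intro z
    rw [_root_.zpow_mul, zpow_natCast]
    exact Subgroup.zpow_mem _ hm z
  have e10 : ε 1 0 = δ 1 0 := by
    rw [hε, mul10, mul10, mul11, htk.2.2.1, htk.2.2.2, htl.1, htl.2.2.1]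
    ring
  have e00 : ε 0 0 = δ 0 0 + m * l * δ 1 0 := by
    rw [hε, mul00, mul00, mul01, htk.1, htk.2.1, htl.1, htl.2.2.1]
    ring
  have e11 : ε 1 1 = δ 1 1 + m * l' * δ 1 0 := by
    rw [hε, mul11, mul10, mul11, htk.2.2.1, htk.2.2.2, htl.2.1, htl.2.2.2]
    ring
  have hφ : φ ε = k * φ g := by
    rw [hε, h.map_mul _ _ ((inG_T _).mul hδG) (inG_T _), h.map_mul _ _ (inG_T _) hδG,
      h.zero_of_lower htk.2.2.1, h.zero_of_lower htl.2.2.1, hδ, map_pow h hg]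
    ring
  have h1 := hK ε (((inG_T _).mul hδG).mul (inG_T _))
    (Δ.mul_mem (Δ.mul_mem (hmz l) hΔ) (hmz l')) (by
      rw [e10]
      have : (G : ℤ) + 1 ≤ k := by exact_mod_cast hkG
      linarith) (by rw [e10]; exact hδ0) (by rw [e00]; exact ⟨hl0, hlp⟩)
      (by rw [e11]; exact ⟨hl0', hlp'⟩)
  rw [e10, hφ, abs_mul, abs_of_nonneg (by positivity : (0 : ℝ) ≤ (k : ℝ))] at h1
  have hk1 : (1 : ℝ) ≤ k := by
    have : 1 ≤ k := by omega
    exact_mod_cast this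
  have hc1 : (1 : ℝ) ≤ |((g 1 0 : ℤ) : ℝ)| := by exact_mod_cast Int.one_le_abs hc
  have ht3 : (3 : ℝ) ≤ |((tr g : ℤ) : ℝ)| := by exact_mod_cast ht
  have hu' : |((δ 1 0 : ℤ) : ℝ)| ≤ |((g 1 0 : ℤ) : ℝ)| * (2 * |((tr g : ℤ) : ℝ)|) ^ k := by
    exact_mod_cast hu
  have hδpos : 0 < |((δ 1 0 : ℤ) : ℝ)| := by
    rw [abs_pos]
    exact_mod_cast hδ0
  have h2 := Real.log_le_log hδpos hu'
  rw [Real.log_mul (by positivity) (by positivity), Real.log_pow] at h2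
  have hlc : 0 ≤ Real.log |((g 1 0 : ℤ) : ℝ)| := Real.log_nonneg hc1
  have h3 : (k : ℝ) * |φ g| ≤ k * (K * (Real.log |((g 1 0 : ℤ) : ℝ)| +
      Real.log (2 * |((tr g : ℤ) : ℝ)|))) := by
    refine h1.trans ?_
    have h4 : Real.log |((δ 1 0 : ℤ) : ℝ)| ≤ k * (Real.log |((g 1 0 : ℤ) : ℝ)| +
      Real.log (2 * |((tr g : ℤ) : ℝ)|)) := by nlinarith
    calc K * Real.log |((δ 1 0 : ℤ) : ℝ)| ≤ K * (k * (Real.log |((g 1 0 : ℤ) : ℝ)| +
      Real.log (2 * |((tr g : ℤ) : ℝ)|))) := mul_le_mul_of_nonneg_left h4 hK0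
      _ = _ := by ring
  exact le_of_mul_le_mul_left h3 (by linarith)

lemma deep_length (h : IsCuspHom N φ) (Δ : Subgroup SL(2, ℤ)) [Δ.FiniteIndex] (G : ℕ) {K : ℝ}
    (hK0 : 0 ≤ K)
    (hK : ∀ δ : SL(2, ℤ), InG N δ → δ ∈ Δ → (G : ℤ) ≤ |tr δ| → 3 ≤ |tr δ| →
      |φ δ| ≤ K * geoLength (tr δ))
    {g : SL(2, ℤ)} (hg : InG N g) (ht : 3 ≤ |tr g|) :
    |φ g| ≤ 6 * K * geoLength (tr g) := by
  obtain ⟨m, hm0, hm, n, hn0, hn⟩ := exists_pow Δ g
  obtain ⟨hΔ, -, -⟩ := hn (G + 1)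
  set k := n * (G + 1) with hk
  have hkG : G + 1 ≤ k := Nat.le_mul_of_pos_left _ hn0
  obtain ⟨hl, hu, h3⟩ := pow_tr ht k
  have h3' := h3 (by omega)
  have h1 := hK (g ^ k) (inG_pow hg k) hΔ (by
    have : (G : ℤ) + 1 ≤ k := by exact_mod_cast hkG
    linarith) h3'
  rw [map_pow h hg, abs_mul, abs_of_nonneg (by positivity : (0 : ℝ) ≤ (k : ℝ))] at h1
  have hk1 : (1 : ℝ) ≤ k := by
    have : 1 ≤ k := by omega
    exact_mod_cast this
  have ht3 : (3 : ℝ) ≤ |((tr g : ℤ) : ℝ)| := by exact_mod_cast ht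
  have hu' : |((tr (g ^ k) : ℤ) : ℝ)| ≤ 2 * (2 * |((tr g : ℤ) : ℝ)|) ^ k := by
    exact_mod_cast hu
  have hpos : 0 < |((tr (g ^ k) : ℤ) : ℝ)| := by
    have : (3 : ℝ) ≤ |((tr (g ^ k) : ℤ) : ℝ)| := by exact_mod_cast h3'
    linarith
  have h2 := Real.log_le_log hpos hu'
  rw [Real.log_mul (by positivity) (by positivity), Real.log_pow,
    Real.log_mul (by positivity) (by positivity)] at h2
  have hlog3 : 1 ≤ Real.log |((tr g : ℤ) : ℝ)| := by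
    rw [← Real.log_exp 1]
    apply Real.log_le_log (Real.exp_pos _)
    have := Real.exp_one_lt_d9
    linarith
  have hlog2 : Real.log 2 ≤ 1 := by
    have := Real.log_two_lt_d9
    linarith
  have hlog20 : 0 ≤ Real.log 2 := Real.log_nonneg (by norm_num)
  have h4 : Real.log |((tr (g ^ k) : ℤ) : ℝ)| ≤ k * (3 * Real.log |((tr g : ℤ) : ℝ)|) := by
    nlinarith
  have h5 := geoLength_le h3'
  have h6 := log_le_geoLength ht
  have h7 : geoLength (tr (g ^ k)) ≤ k * (6 * geoLength (tr g)) := by nlinarith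
  have h8 : (k : ℝ) * |φ g| ≤ k * (6 * K * geoLength (tr g)) := by
    refine h1.trans ((mul_le_mul_of_nonneg_left h7 hK0).trans (le_of_eq ?_))
    ring
  exact le_of_mul_le_mul_left h8 (by linarith)

/-- The bound `C N ^ κ log |r|` for the coordinates of `H(γ)`, for the `γ ∈ Γ₀(N)` in the subgroup
`Δ N` whose lower left entry `r ≠ 0` is at least `G N` in absolute value and whose diagonal entries
are (positive) prime numbers. -/
def DeepEntries (Δ : ℕ → Subgroup SL(2, ℤ)) (G : ℕ → ℕ) : Prop :=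
  ∃ κ : ℝ, 0 < κ ∧ ∃ C : ℝ, 0 < C ∧ ∀ N : ℕ, 1 ≤ N → ∀ a : ℕ → ℤ, IsNewform N a →
    ∀ Ω₁ Ω₂ : ℂ, IsBasis N a Ω₁ Ω₂ → ∀ (p q r s : ℤ) (hdet : p * s - q * r = 1), (N : ℤ) ∣ r →
      mk p q r s hdet ∈ Δ N → (G N : ℤ) ≤ |r| → r ≠ 0 → (0 < p ∧ p.natAbs.Prime) →
      (0 < s ∧ s.natAbs.Prime) →
      CoordBound a Ω₁ Ω₂ p q r s (C * (N : ℝ) ^ κ * Real.log |(r : ℝ)|)

/-- The bound `C N ^ κ` times the length of the closed geodesic of `γ` for the coordinates of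
`H(γ)`, for the hyperbolic `γ ∈ Γ₀(N)` in the subgroup `Δ N` whose trace is at least `G N` in
absolute value. -/
def DeepLength (Δ : ℕ → Subgroup SL(2, ℤ)) (G : ℕ → ℕ) : Prop :=
  ∃ κ : ℝ, 0 < κ ∧ ∃ C : ℝ, 0 < C ∧ ∀ N : ℕ, 1 ≤ N → ∀ a : ℕ → ℤ, IsNewform N a →
    ∀ Ω₁ Ω₂ : ℂ, IsBasis N a Ω₁ Ω₂ → ∀ (p q r s : ℤ) (hdet : p * s - q * r = 1), (N : ℤ) ∣ r →
      mk p q r s hdet ∈ Δ N → (G N : ℤ) ≤ |p + s| → 3 ≤ |p + s| →
      CoordBound a Ω₁ Ω₂ p q r s (C * (N : ℝ) ^ κ * geoLength (p + s))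

lemma mk_self (δ : SL(2, ℤ)) : mk (δ 0 0) (δ 0 1) (δ 1 0) (δ 1 1) (det_eq δ) = δ := by
  ext i j
  fin_cases i <;> fin_cases j <;> rfl

theorem deep_tfae (Δ : ℕ → Subgroup SL(2, ℤ)) (hΔ : ∀ N, (Δ N).FiniteIndex) (G : ℕ → ℕ) :
    List.TFAE [EntriesAtMost 2, DeepEntries Δ G, DeepLength Δ G] := by
  have h0 := shimura_tfae_small
  have h00 := geodesics_tfae
  tfae_have 1 → 3 := by
    intro h
    obtain ⟨κ, hκ, C, hC, h⟩ := (h00.out 0 1).1 h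
    exact ⟨κ, hκ, C, hC, fun N hN a ha Ω₁ Ω₂ hb p q r s hdet hr _ _ h3 =>
      h N hN a ha Ω₁ Ω₂ hb p q r s hdet hr h3⟩
  tfae_have 3 → 1 := by
    rintro ⟨κ, hκ, C, hC, h⟩
    have hL : LengthLaw := by
      refine ⟨κ, hκ, 6 * C, by positivity, ?_⟩
      intro N hN a ha Ω₁ Ω₂ hb p q r s hdet hr ht
      have hN0 : (0 : ℝ) < N := by exact_mod_cast hN
      have hKnn : 0 ≤ C * (N : ℝ) ^ κ := by positivity
      have := hΔ N
      have key : ∀ δ : SL(2, ℤ), InG N δ → δ ∈ Δ N → (G N : ℤ) ≤ |tr δ| → 3 ≤ |tr δ| →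
          |L₁ Ω₁ Ω₂ (Hs a δ)| ≤ C * (N : ℝ) ^ κ * geoLength (tr δ) ∧
          |L₂ Ω₂ (Hs a δ)| ≤ C * (N : ℝ) ^ κ * geoLength (tr δ) := by
        intro δ hδ hδΔ hδ1 hδ2
        exact of_coord ha.toIsForm hb hδ (h N hN a ha Ω₁ Ω₂ hb _ _ _ _ (det_eq δ) hδ
          (by rw [mk_self]; exact hδΔ) hδ1 hδ2)
      have b1 := deep_length (isCuspHom ha.toIsForm (L₁ Ω₁ Ω₂)) (Δ N) (G N) hKnn
        (fun δ h1 h2 h3 h4 => (key δ h1 h2 h3 h4).1) (g := mk p q r s hdet) hr ht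
      have b2 := deep_length (isCuspHom ha.toIsForm (L₂ Ω₂)) (Δ N) (G N) hKnn
        (fun δ h1 h2 h3 h4 => (key δ h1 h2 h3 h4).2) (g := mk p q r s hdet) hr ht
      have e : 6 * (C * (N : ℝ) ^ κ) * geoLength (tr (mk p q r s hdet)) =
          6 * C * (N : ℝ) ^ κ * geoLength (p + s) := by
        have : tr (mk p q r s hdet) = p + s := rfl
        rw [this]
        ring
      rw [e] at b1 b2
      exact coord_of hb hdet b1 b2
    exact (h00.out 1 0).1 hL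
  tfae_have 1 → 2 := by
    intro h
    obtain ⟨κ, hκ, C, hC, h⟩ := (h0.out 0 3).1 h
    refine ⟨κ, hκ, 3 * C, by positivity, ?_⟩
    intro N hN a ha Ω₁ Ω₂ hb p q r s hdet hr _ _ hr0 _ _
    have hN0 : (0 : ℝ) < N := by exact_mod_cast hN
    rcases Nat.lt_or_ge N 2 with h2 | h2
    · obtain rfl : N = 1 := by omega
      have hlog : 0 ≤ Real.log |(r : ℝ)| := by
        apply Real.log_nonneg
        exact_mod_cast Int.one_le_abs hr0
      apply coord_of hb hdet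
      · have e := level_one (isCuspHom ha.toIsForm (L₁ Ω₁ Ω₂)) (mk p q r s hdet)
        rw [e, abs_zero]
        positivity
      · have e := level_one (isCuspHom ha.toIsForm (L₂ Ω₂)) (mk p q r s hdet)
        rw [e, abs_zero]
        positivity
    · intro m n hmn
      have h1 := h N hN a ha Ω₁ Ω₂ hb p q r s hdet hr hr0 m n hmn
      have hr2 : (2 : ℤ) ≤ |r| := by
        have h5 := Int.le_of_dvd (abs_pos.2 hr0) ((dvd_abs _ _).2 hr)
        have h6 : (2 : ℤ) ≤ N := by exact_mod_cast h2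
        linarith
      have hr2' : (2 : ℝ) ≤ |(r : ℝ)| := by exact_mod_cast hr2
      have hlog : Real.log 2 ≤ Real.log |(r : ℝ)| := Real.log_le_log (by norm_num) hr2'
      have hl2 := Real.log_two_gt_d9
      have h3 : C * (N : ℝ) ^ κ * (1 + Real.log |(r : ℝ)|) ≤
          3 * C * (N : ℝ) ^ κ * Real.log |(r : ℝ)| := by
        calc C * (N : ℝ) ^ κ * (1 + Real.log |(r : ℝ)|)
            ≤ C * (N : ℝ) ^ κ * (3 * Real.log |(r : ℝ)|) := by
              apply mul_le_mul_of_nonneg_left _ (by positivity)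
              linarith
          _ = _ := by ring
      exact ⟨h1.1.trans h3, h1.2.trans h3⟩
  tfae_have 2 → 1 := by
    rintro ⟨κ, hκ, C, hC, h⟩
    refine ⟨κ + 1, by positivity, 6 * C, by positivity, ?_⟩
    intro N hN a ha Ω₁ Ω₂ hb p q r s hdet hr hp _ hrA hs
    have hN0 : (0 : ℝ) < N := by exact_mod_cast hN
    have hN1 : (1 : ℝ) ≤ N := by exact_mod_cast hN
    have hKnn : 0 ≤ C * (N : ℝ) ^ κ := by positivity
    by_cases hz : r = 0 ∨ |p + s| ≤ 2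
    · have hz' : ∀ φ : SL(2, ℤ) → ℝ, IsCuspHom N φ → φ (mk p q r s hdet) = 0 := by
        intro φ hφ
        rcases hz with hz | hz
        · exact hφ.zero_of_lower hz
        · exact zero_of_tr hφ hr hz
      apply coord_of hb hdet
      · have e := hz' _ (isCuspHom ha.toIsForm (L₁ Ω₁ Ω₂))
        rw [e, abs_zero]
        positivity
      · have e := hz' _ (isCuspHom ha.toIsForm (L₂ Ω₂))
        rw [e, abs_zero]
        positivity
    · push Not at hz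
      obtain ⟨hr0, ht⟩ := hz
      have ht3 : 3 ≤ |tr (mk p q r s hdet)| := by
        change 3 ≤ |p + s|
        omega
      have := hΔ N
      have key : ∀ δ : SL(2, ℤ), InG N δ → δ ∈ Δ N → (G N : ℤ) ≤ |δ 1 0| → δ 1 0 ≠ 0 →
          (0 < δ 0 0 ∧ (δ 0 0).natAbs.Prime) → (0 < δ 1 1 ∧ (δ 1 1).natAbs.Prime) →
          |L₁ Ω₁ Ω₂ (Hs a δ)| ≤ C * (N : ℝ) ^ κ * Real.log |((δ 1 0 : ℤ) : ℝ)| ∧
          |L₂ Ω₂ (Hs a δ)| ≤ C * (N : ℝ) ^ κ * Real.log |((δ 1 0 : ℤ) : ℝ)| := by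
        intro δ hδ hδΔ hδ1 hδ2 hδ3 hδ4
        exact of_coord ha.toIsForm hb hδ (h N hN a ha Ω₁ Ω₂ hb _ _ _ _ (det_eq δ) hδ
          (by rw [mk_self]; exact hδΔ) hδ1 hδ2 hδ3 hδ4)
      have b1 := deep_entry (isCuspHom ha.toIsForm (L₁ Ω₁ Ω₂)) (Δ N) (G N) hKnn
        (fun δ h1 h2 h3 h4 h5 h6 => (key δ h1 h2 h3 h4 h5 h6).1) (g := mk p q r s hdet) hr hr0 ht3
      have b2 := deep_entry (isCuspHom ha.toIsForm (L₂ Ω₂)) (Δ N) (G N) hKnn
        (fun δ h1 h2 h3 h4 h5 h6 => (key δ h1 h2 h3 h4 h5 h6).2) (g := mk p q r s hdet) hr hr0 ht3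
      have e1 : (mk p q r s hdet) 1 0 = r := rfl
      have e2 : tr (mk p q r s hdet) = p + s := rfl
      rw [e1, e2] at b1 b2
      have hlN := Real.log_le_self hN0.le
      have c1 : Real.log |(r : ℝ)| ≤ 2 * N := by
        have h3 : |(r : ℝ)| ≤ (N : ℝ) ^ 2 := by exact_mod_cast hrA
        have h4 : 0 < |(r : ℝ)| := by
          rw [abs_pos]
          exact_mod_cast hr0
        have h5 := Real.log_le_log h4 h3
        rw [Real.log_pow] at h5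
        push_cast at h5
        linarith
      have c2 : Real.log (2 * |((p + s : ℤ) : ℝ)|) ≤ 4 * N := by
        have h3 : |((p + s : ℤ) : ℝ)| ≤ 2 * (N : ℝ) ^ 2 := by
          have h6 : |p + s| ≤ 2 * (N : ℤ) ^ 2 := (abs_add_le _ _).trans (by linarith)
          exact_mod_cast h6
        have h4 : 0 < 2 * |((p + s : ℤ) : ℝ)| := by
          have : (3 : ℝ) ≤ |((p + s : ℤ) : ℝ)| := by exact_mod_cast ht3
          linarith
        have h5 := Real.log_le_log h4 (by linarith : 2 * |((p + s : ℤ) : ℝ)| ≤ (2 * (N : ℝ)) ^ 2)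
        rw [Real.log_pow, Real.log_mul (by norm_num) hN0.ne'] at h5
        push_cast at h5 ⊢
        have hl2 := Real.log_two_lt_d9
        linarith
      have c3 : C * (N : ℝ) ^ κ * (Real.log |(r : ℝ)| + Real.log (2 * |((p + s : ℤ) : ℝ)|)) ≤
          6 * C * (N : ℝ) ^ (κ + 1) := by
        rw [Real.rpow_add hN0, Real.rpow_one]
        calc C * (N : ℝ) ^ κ * (Real.log |(r : ℝ)| + Real.log (2 * |((p + s : ℤ) : ℝ)|))
            ≤ C * (N : ℝ) ^ κ * (6 * N) := by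
              apply mul_le_mul_of_nonneg_left _ hKnn
              linarith
          _ = _ := by ring
      exact coord_of hb hdet (b1.trans c3) (b2.trans c3)
  tfae_finish

end Pool.Agent.Q213.SM
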