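import Pool.Agent.Q213.SM.Conj

/-!
# The Shimura map on closed geodesics
-/

open Complex Matrix.SpecialLinearGroup MatrixGroups ModularGroup

namespace Pool.Agent.Q213.SM

open Pool.Agent.TH133.SH

/-- The length of the closed geodesic of a hyperbolic matrix with trace `t` in `SL(2, ℤ)`: twice the
logarithm of the eigenvalue of larger absolute value. -/
noncomputable def geoLength (t : ℤ) : ℝ :=
  2 * Real.log ((|(t : ℝ)| + Real.sqrt ((t : ℝ) ^ 2 - 4)) / 2)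

lemma log_le_geoLength {t : ℤ} (ht : 3 ≤ |t|) : Real.log |(t : ℝ)| ≤ geoLength t := by
  have h3 : (3 : ℝ) ≤ |(t : ℝ)| := by exact_mod_cast ht
  have h0 : (0 : ℝ) < |(t : ℝ)| := by linarith
  unfold geoLength
  have h1 : Real.log |(t : ℝ)| = 2 * Real.log (Real.sqrt |(t : ℝ)|) := by
    rw [Real.log_sqrt h0.le]
    ring
  rw [h1]
  have h2 : Real.sqrt |(t : ℝ)| ≤ (|(t : ℝ)| + Real.sqrt ((t : ℝ) ^ 2 - 4)) / 2 := by
    have h4 : |(t : ℝ)| - 1 ≤ Real.sqrt ((t : ℝ) ^ 2 - 4) := by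
      apply Real.le_sqrt_of_sq_le
      rw [← sq_abs (t : ℝ)]
      nlinarith
    have h5 : Real.sqrt |(t : ℝ)| ≤ |(t : ℝ)| - 1 / 2 := by
      apply Real.sqrt_le_iff.2
      constructor
      · linarith
      · nlinarith
    linarith
  have h6 : 0 < Real.sqrt |(t : ℝ)| := Real.sqrt_pos.2 h0
  have := Real.log_le_log h6 h2
  linarith

lemma geoLength_le {t : ℤ} (ht : 3 ≤ |t|) : geoLength t ≤ 2 * Real.log |(t : ℝ)| := by
  have h3 : (3 : ℝ) ≤ |(t : ℝ)| := by exact_mod_cast ht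
  unfold geoLength
  have h1 : Real.sqrt ((t : ℝ) ^ 2 - 4) ≤ |(t : ℝ)| := by
    rw [← Real.sqrt_sq_eq_abs]
    exact Real.sqrt_le_sqrt (by linarith)
  have h2 : (|(t : ℝ)| + Real.sqrt ((t : ℝ) ^ 2 - 4)) / 2 ≤ |(t : ℝ)| := by linarith
  have h4 : 0 < (|(t : ℝ)| + Real.sqrt ((t : ℝ) ^ 2 - 4)) / 2 := by
    have := Real.sqrt_nonneg ((t : ℝ) ^ 2 - 4)
    linarith
  have := Real.log_le_log h4 h2
  linarith

/-- There are constants `κ`, `C` such that the coordinates of `H(γ)` are at most `C N ^ κ` for all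
newforms of all levels `N` and ALL `γ ∈ Γ₀(N)` with trace of absolute value at most `X N`. -/
def TraceAtMost (X : ℕ → ℤ) : Prop :=
  ∃ κ : ℝ, 0 < κ ∧ ∃ C : ℝ, 0 < C ∧ ∀ N : ℕ, 1 ≤ N → ∀ a : ℕ → ℤ, IsNewform N a →
    ∀ Ω₁ Ω₂ : ℂ, IsBasis N a Ω₁ Ω₂ → ∀ p q r s : ℤ, p * s - q * r = 1 → (N : ℤ) ∣ r →
      |p + s| ≤ X N → CoordBound a Ω₁ Ω₂ p q r s (C * (N : ℝ) ^ κ)

/-- There are constants `κ`, `C` such that the coordinates of `H(γ)` are at most `C N ^ κ` times the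
length of the closed geodesic of `γ`, for all newforms of all levels `N` and all hyperbolic
`γ ∈ Γ₀(N)`. -/
def LengthLaw : Prop :=
  ∃ κ : ℝ, 0 < κ ∧ ∃ C : ℝ, 0 < C ∧ ∀ N : ℕ, 1 ≤ N → ∀ a : ℕ → ℤ, IsNewform N a →
    ∀ Ω₁ Ω₂ : ℂ, IsBasis N a Ω₁ Ω₂ → ∀ p q r s : ℤ, p * s - q * r = 1 → (N : ℤ) ∣ r →
      3 ≤ |p + s| → CoordBound a Ω₁ Ω₂ p q r s (C * (N : ℝ) ^ κ * geoLength (p + s))

variable {N : ℕ} {a : ℕ → ℤ} {Ω₁ Ω₂ : ℂ}

/-- Bounds for the two coordinate homomorphisms are bounds for the coordinates. -/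
lemma coord_of (hb : IsBasis N a Ω₁ Ω₂) {p q r s : ℤ} (hdet : p * s - q * r = 1) {X : ℝ}
    (h1 : |L₁ Ω₁ Ω₂ (Hs a (mk p q r s hdet))| ≤ X) (h2 : |L₂ Ω₂ (Hs a (mk p q r s hdet))| ≤ X) :
    CoordBound a Ω₁ Ω₂ p q r s X := by
  intro m n hmn
  have hHγ : Hs a (mk p q r s hdet) = (m : ℂ) * Ω₁ + (n : ℂ) * Ω₂ := hmn
  rw [hHγ, L₁_apply hb] at h1
  rw [hHγ, L₂_apply hb] at h2
  exact ⟨h1, h2⟩

/-- Bounds for the coordinates are bounds for the two coordinate homomorphisms. -/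
lemma of_coord (ha : IsForm N a) (hb : IsBasis N a Ω₁ Ω₂) {δ : SL(2, ℤ)} (hδ : InG N δ) {X : ℝ}
    (h : CoordBound a Ω₁ Ω₂ (δ 0 0) (δ 0 1) (δ 1 0) (δ 1 1) X) :
    |L₁ Ω₁ Ω₂ (Hs a δ)| ≤ X ∧ |L₂ Ω₂ (Hs a δ)| ≤ X := by
  obtain ⟨m', n', hmn'⟩ := lattice ha hb (z := Hs a δ) ⟨δ, hδ, rfl⟩
  have h1 := h m' n' hmn'
  rw [hmn', L₁_apply hb, L₂_apply hb]
  exact h1

/-- The trace can be made small by a parabolic element. -/
lemma trace_trick {φ : SL(2, ℤ) → ℝ} (h : IsCuspHom N φ) {γ : SL(2, ℤ)} (hγ : InG N γ)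
    (h0 : γ 1 0 ≠ 0) : ∃ δ : SL(2, ℤ), InG N δ ∧ φ δ = φ γ ∧ |δ 0 0 + δ 1 1| ≤ |γ 1 0| ∧
      δ 1 0 = γ 1 0 := by
  obtain ⟨k, hk⟩ := exists_near (γ 0 0 + γ 1 1) (γ 1 0) h0
  have ht := T_pow k
  refine ⟨T ^ k * γ, (inG_T k).mul hγ, ?_, ?_, ?_⟩
  · rw [h.map_mul _ _ (inG_T k) hγ, h.zero_of_lower ht.2.2.1, zero_add]
  · rw [mul00, mul11, ht.1, ht.2.1, ht.2.2.1, ht.2.2.2]
    have e : 1 * γ 0 0 + k * γ 1 0 + (0 * γ 0 1 + 1 * γ 1 1) = γ 0 0 + γ 1 1 + k * γ 1 0 := by ring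
    rw [e]
    have := abs_nonneg (γ 0 0 + γ 1 1 + k * γ 1 0)
    linarith
  · rw [mul10, ht.2.2.1, ht.2.2.2]
    ring

lemma trace_trick' {φ ψ : SL(2, ℤ) → ℝ} (h : IsCuspHom N φ) (h' : IsCuspHom N ψ) {γ : SL(2, ℤ)}
    (hγ : InG N γ) (h0 : γ 1 0 ≠ 0) : ∃ δ : SL(2, ℤ), InG N δ ∧ φ δ = φ γ ∧ ψ δ = ψ γ ∧
      |δ 0 0 + δ 1 1| ≤ |γ 1 0| := by
  obtain ⟨k, hk⟩ := exists_near (γ 0 0 + γ 1 1) (γ 1 0) h0
  have ht := T_pow k
  refine ⟨T ^ k * γ, (inG_T k).mul hγ, ?_, ?_, ?_⟩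
  · rw [h.map_mul _ _ (inG_T k) hγ, h.zero_of_lower ht.2.2.1, zero_add]
  · rw [h'.map_mul _ _ (inG_T k) hγ, h'.zero_of_lower ht.2.2.1, zero_add]
  · rw [mul00, mul11, ht.1, ht.2.1, ht.2.2.1, ht.2.2.2]
    have e : 1 * γ 0 0 + k * γ 1 0 + (0 * γ 0 1 + 1 * γ 1 1) = γ 0 0 + γ 1 1 + k * γ 1 0 := by ring
    rw [e]
    have := abs_nonneg (γ 0 0 + γ 1 1 + k * γ 1 0)
    linarith

/-- From small traces to small lower left entries. -/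
lemma of_trace {X : ℕ → ℤ} (hX : TraceAtMost X) :
    ∃ κ : ℝ, 0 < κ ∧ ∃ C : ℝ, 0 < C ∧ ∀ N : ℕ, 1 ≤ N → ∀ a : ℕ → ℤ, IsNewform N a →
    ∀ Ω₁ Ω₂ : ℂ, IsBasis N a Ω₁ Ω₂ → ∀ p q r s : ℤ, p * s - q * r = 1 → (N : ℤ) ∣ r →
      |r| ≤ X N → CoordBound a Ω₁ Ω₂ p q r s (C * (N : ℝ) ^ κ) := by
  obtain ⟨κ, hκ, C, hC, h⟩ := hX
  refine ⟨κ, hκ, C, hC, ?_⟩
  intro N hN a ha Ω₁ Ω₂ hb p q r s hdet hr hrX
  have hN0 : (0 : ℝ) < N := by exact_mod_cast hN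
  have h1 := isCuspHom ha.toIsForm (L₁ Ω₁ Ω₂)
  have h2 := isCuspHom ha.toIsForm (L₂ Ω₂)
  by_cases hr0 : r = 0
  · apply coord_of hb hdet
    · have e := h1.zero_of_lower (g := mk p q r s hdet) hr0
      rw [e, abs_zero]
      positivity
    · have e := h2.zero_of_lower (g := mk p q r s hdet) hr0
      rw [e, abs_zero]
      positivity
  · obtain ⟨δ, hδ, e1, e2, e3⟩ := trace_trick' h1 h2 (γ := mk p q r s hdet) hr hr0
    have e4 : |(mk p q r s hdet) 1 0| = |r| := rfl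
    rw [e4] at e3
    have h3 := of_coord ha.toIsForm hb hδ
      (h N hN a ha Ω₁ Ω₂ hb _ _ _ _ (det_eq δ) hδ (e3.trans hrX))
    rw [e1, e2] at h3
    exact coord_of hb hdet h3.1 h3.2

lemma log_abs_le_of_le {t : ℤ} (ht : 3 ≤ |t|) {Y : ℝ} (h : |(t : ℝ)| ≤ Y) :
    Real.log |(t : ℝ)| ≤ Real.log Y := by
  have h3 : (3 : ℝ) ≤ |(t : ℝ)| := by exact_mod_cast ht
  exact Real.log_le_log (by linarith) h

/-- From the length law to bounded traces. -/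
lemma to_trace (hL : LengthLaw) {X : ℕ → ℤ} {E : ℝ} (hE0 : 0 < E)
    (hE : ∀ N : ℕ, 1 ≤ N → ∀ t : ℤ, 3 ≤ |t| → |t| ≤ X N → Real.log |(t : ℝ)| ≤ E * N) :
    TraceAtMost X := by
  obtain ⟨κ, hκ, C, hC, h⟩ := hL
  refine ⟨κ + 1, by positivity, C * (2 * E), by positivity, ?_⟩
  intro N hN a ha Ω₁ Ω₂ hb p q r s hdet hr ht
  have hN0 : (0 : ℝ) < N := by exact_mod_cast hN
  rcases le_or_gt 3 |p + s| with h3 | h3
  · intro m n hmn
    have h1 := h N hN a ha Ω₁ Ω₂ hb p q r s hdet hr h3 m n hmn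
    have h2 : C * (N : ℝ) ^ κ * geoLength (p + s) ≤ C * (2 * E) * (N : ℝ) ^ (κ + 1) := by
      rw [Real.rpow_add hN0, Real.rpow_one]
      have h4 := (geoLength_le h3).trans (mul_le_mul_of_nonneg_left (hE N hN _ h3 ht) zero_le_two)
      calc C * (N : ℝ) ^ κ * geoLength (p + s) ≤ C * (N : ℝ) ^ κ * (2 * (E * N)) := by gcongr
        _ = C * (2 * E) * ((N : ℝ) ^ κ * N) := by ring
    exact ⟨h1.1.trans h2, h1.2.trans h2⟩
  · have ht2 : |tr (mk p q r s hdet)| ≤ 2 := by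
      change |p + s| ≤ 2
      omega
    apply coord_of hb hdet
    · have e := zero_of_tr (isCuspHom ha.toIsForm (L₁ Ω₁ Ω₂)) (g := mk p q r s hdet) hr ht2
      rw [e, abs_zero]
      positivity
    · have e := zero_of_tr (isCuspHom ha.toIsForm (L₂ Ω₂)) (g := mk p q r s hdet) hr ht2
      rw [e, abs_zero]
      positivity

theorem geodesics_tfae : List.TFAE [EntriesAtMost 2, LengthLaw,
    ∀ A : ℕ, TraceAtMost (fun N => (N : ℤ) ^ A), TraceAtMost (fun N => (smallEntry N : ℤ))] := by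
  have h0 := shimura_tfae_small
  tfae_have 1 → 2 := by
    intro h
    obtain ⟨κ, hκ, C, hC, h⟩ := (h0.out 0 3).1 h
    refine ⟨κ + 1, by positivity, C * 5, by positivity, ?_⟩
    intro N hN a ha Ω₁ Ω₂ hb p q r s hdet hr ht
    have hN0 : (0 : ℝ) < N := by exact_mod_cast hN
    have key : ∀ δ : SL(2, ℤ), InG N δ → δ 1 0 ≠ 0 →
        |L₁ Ω₁ Ω₂ (Hs a δ)| ≤ C * (N : ℝ) ^ κ * (1 + Real.log |((δ 1 0 : ℤ) : ℝ)|) ∧
        |L₂ Ω₂ (Hs a δ)| ≤ C * (N : ℝ) ^ κ * (1 + Real.log |((δ 1 0 : ℤ) : ℝ)|) := by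
      intro δ hδ hδ0
      exact of_coord ha.toIsForm hb hδ (h N hN a ha Ω₁ Ω₂ hb _ _ _ _ (det_eq δ) hδ hδ0)
    have h3 : 3 ≤ |tr (mk p q r s hdet)| := ht
    have hKnn : 0 ≤ C * (N : ℝ) ^ κ := by positivity
    have b1 := length_growth hN (isCuspHom ha.toIsForm (L₁ Ω₁ Ω₂)) hKnn
      (fun δ h1 h2 => (key δ h1 h2).1) (g := mk p q r s hdet) hr h3
    have b2 := length_growth hN (isCuspHom ha.toIsForm (L₂ Ω₂)) hKnn
      (fun δ h1 h2 => (key δ h1 h2).2) (g := mk p q r s hdet) hr h3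
    have e1 : C * (N : ℝ) ^ κ * (5 * N * Real.log |((tr (mk p q r s hdet) : ℤ) : ℝ)|) ≤
        C * 5 * (N : ℝ) ^ (κ + 1) * geoLength (p + s) := by
      rw [Real.rpow_add hN0, Real.rpow_one]
      have h4 := log_le_geoLength ht
      have e2 : tr (mk p q r s hdet) = p + s := rfl
      rw [e2]
      calc C * (N : ℝ) ^ κ * (5 * N * Real.log |((p + s : ℤ) : ℝ)|)
          ≤ C * (N : ℝ) ^ κ * (5 * N * geoLength (p + s)) := by gcongr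
        _ = C * 5 * ((N : ℝ) ^ κ * N) * geoLength (p + s) := by ring
    exact coord_of hb hdet (b1.trans e1) (b2.trans e1)
  tfae_have 2 → 3 := by
    intro h A
    refine to_trace h (E := 1 + A) (by positivity) ?_
    intro N hN t ht htA
    have hN0 : (0 : ℝ) < N := by exact_mod_cast hN
    have h1 : |(t : ℝ)| ≤ (N : ℝ) ^ A := by exact_mod_cast htA
    have h2 := log_abs_le_of_le ht h1
    rw [Real.log_pow] at h2
    have h3 := Real.log_le_self hN0.le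
    have h4 : (0 : ℝ) ≤ A := Nat.cast_nonneg _
    nlinarith
  tfae_have 2 → 4 := by
    intro h
    refine to_trace h (E := 146) (by norm_num) ?_
    intro N hN t ht htA
    have h1 : |(t : ℝ)| ≤ (smallEntry N : ℝ) := by exact_mod_cast htA
    exact (log_abs_le_of_le ht h1).trans (log_smallEntry hN)
  tfae_have 3 → 1 := by
    intro h
    obtain ⟨κ, hκ, C, hC, h⟩ := of_trace (h 2)
    exact ⟨κ, hκ, C, hC, fun N hN a ha Ω₁ Ω₂ hb p q r s hdet hr _ _ hrA _ =>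
      h N hN a ha Ω₁ Ω₂ hb p q r s hdet hr hrA⟩
  tfae_have 4 → 1 := by
    intro h
    have h5 : SmallLowerLeft := of_trace h
    exact (h0.out 1 0).1 h5
  tfae_finish

end Pool.Agent.Q213.SM
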