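import Pool.Agent.Q213.SM.DeepMain
import Pool.Agent.Y818.GF.SW

/-!
# The Shimura map: matrices with prime entries suffice
-/

open Complex Matrix Matrix.SpecialLinearGroup MatrixGroups ModularGroup

namespace Pool.Agent.Q213.SM

open Pool.Agent.TH133.SH

/-- A prime number in every residue class modulo `q`, at most exponential in `q`. -/
lemma exists_prime_exp : ∃ C : ℝ, 0 < C ∧ ∀ q : ℕ, 1 ≤ q → ∀ a : ℤ, IsCoprime a (q : ℤ) →
    ∃ l : ℕ, l.Prime ∧ (q : ℤ) ∣ (l : ℤ) - a ∧ Real.log l ≤ C * q := by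
  obtain ⟨C, hC, x0, hsw⟩ := Pool.Agent.Y818.GF.sw_FF 1
  set M : ℝ := C + x0 + 1 with hM
  have hx00 : (0 : ℝ) ≤ x0 := Nat.cast_nonneg _
  refine ⟨M + 2, by positivity, ?_⟩
  intro q hq a ha
  have hq1 : (1 : ℝ) ≤ q := by exact_mod_cast hq
  have hqz : (0 : ℤ) < q := by exact_mod_cast hq
  obtain ⟨b, hb⟩ := Int.eq_ofNat_of_zero_le (Int.emod_nonneg a hqz.ne')
  have hbq : b < q := by
    have := Int.emod_lt_of_pos a hqz
    omega
  have hab : (q : ℤ) ∣ (b : ℤ) - a := by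
    rw [← hb]
    exact ⟨-(a / q), by have := Int.emod_add_mul_ediv a q; linarith⟩
  have hcop : b.Coprime q := by
    have h1 : IsCoprime (b : ℤ) (q : ℤ) := by
      obtain ⟨k, hk⟩ := hab
      have h2 : (b : ℤ) = a + q * k := by linarith
      rw [h2]
      exact ha.add_mul_left_left k
    exact Nat.isCoprime_iff_coprime.1 h1
  set x : ℕ := ⌈Real.exp (q + M)⌉₊ with hx
  have hxe : Real.exp (q + M) ≤ x := Nat.le_ceil _
  have hxe' : (x : ℝ) < Real.exp (q + M) + 1 := Nat.ceil_lt_add_one (Real.exp_pos _).le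
  have hxpos : (0 : ℝ) < x := (Real.exp_pos _).trans_le hxe
  have hlog : (q : ℝ) + M ≤ Real.log x := by
    rw [← Real.log_exp ((q : ℝ) + M)]
    exact Real.log_le_log (Real.exp_pos _) hxe
  have hx0 : x0 ≤ x := by
    have h1 : (x0 : ℝ) ≤ x := by
      have := Real.add_one_le_exp ((q : ℝ) + M)
      linarith
    exact_mod_cast h1
  have h := hsw x hx0 q b hq (by rw [pow_one]; linarith) hbq hcop
  have hL : 1 ≤ Real.log x := by linarith
  have hL0 : 0 < Real.log x := by linarith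
  have hφ : (0 : ℝ) < (Nat.totient q : ℝ) := by exact_mod_cast Nat.totient_pos.2 hq
  have hFF : (x : ℝ) / Real.log x ≤ Pool.Agent.Y818.GF.FF x := by
    unfold Pool.Agent.Y818.GF.FF
    rw [pow_one]
    have h1 : 0 ≤ (x : ℝ) / Real.log x ^ 2 := by positivity
    have h2 : 0 ≤ 2 * ((x : ℝ) / Real.log x ^ 3) := by positivity
    have h3 : 0 ≤ 6 * ((x : ℝ) / Real.log x ^ 4) := by positivity
    linarith
  have hpos : 0 < H343E.piAP x q b := by
    have h1 := (abs_le.1 h).1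
    have h2 : (x : ℝ) / Real.log x / (Nat.totient q : ℝ) ≤
        Pool.Agent.Y818.GF.FF x / (Nat.totient q : ℝ) := by gcongr
    have h3 : C * ((x : ℝ) / ((Nat.totient q : ℝ) * Real.log x ^ 5)) <
        (x : ℝ) / Real.log x / (Nat.totient q : ℝ) := by
      have h4 : (x : ℝ) / Real.log x / (Nat.totient q : ℝ) =
          Real.log x ^ 4 * ((x : ℝ) / ((Nat.totient q : ℝ) * Real.log x ^ 5)) := by
        field_simp
      rw [h4]
      apply mul_lt_mul_of_pos_right _ (by positivity)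
      have h5 : Real.log x ≤ Real.log x ^ 4 := by
        calc Real.log x = Real.log x ^ 1 := (pow_one _).symm
          _ ≤ Real.log x ^ 4 := pow_le_pow_right₀ hL (by norm_num)
      linarith
    linarith
  unfold H343E.piAP at hpos
  have hpos' : 0 < ((Finset.Icc 1 x).filter (fun p => p.Prime ∧ p ≡ b [MOD q])).card := by
    exact_mod_cast hpos
  obtain ⟨l, hl⟩ := Finset.card_pos.1 hpos'
  rw [Finset.mem_filter, Finset.mem_Icc] at hl
  obtain ⟨⟨hl1, hlx⟩, hlp, hmod⟩ := hl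
  refine ⟨l, hlp, ?_, ?_⟩
  · have h1 : (q : ℤ) ∣ (l : ℤ) - b := by
      have h2 := (Nat.modEq_iff_dvd.1 hmod)
      have h3 := (dvd_neg).2 h2
      have e : -((b : ℤ) - (l : ℤ)) = (l : ℤ) - b := by ring
      rwa [e] at h3
    have h2 := dvd_add h1 hab
    have e : (l : ℤ) - b + ((b : ℤ) - a) = l - a := by ring
    rwa [e] at h2
  · have hl0 : (0 : ℝ) < l := by exact_mod_cast hlp.pos
    have h1 : (l : ℝ) ≤ Real.exp (q + M + 1) := by
      have h2 : (l : ℝ) ≤ x := by exact_mod_cast hlx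
      have h3 : Real.exp (q + M + 1) = Real.exp (q + M) * Real.exp 1 := Real.exp_add _ _
      have h4 := Real.add_one_le_exp (1 : ℝ)
      have h5 : 1 ≤ Real.exp ((q : ℝ) + M) := Real.one_le_exp (by positivity)
      nlinarith
    have h2 := Real.log_le_log hl0 h1
    rw [Real.log_exp] at h2
    nlinarith

variable {N : ℕ}

/-- The value on an element of `Γ₀(N)` is the value on an element with prime diagonal entries and
lower left entry `N l`, `l` a prime number at most exponential in the entries. -/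
lemma exists_prime_rep : ∃ C : ℝ, 0 < C ∧ ∀ N : ℕ, 2 ≤ N → ∀ φ ψ : SL(2, ℤ) → ℝ,
    IsCuspHom N φ → IsCuspHom N ψ → ∀ g : SL(2, ℤ), InG N g →
    ∃ δ : SL(2, ℤ), InG N δ ∧ φ δ = φ g ∧ ψ δ = ψ g ∧ (0 < δ 0 0 ∧ (δ 0 0).natAbs.Prime) ∧
      (0 < δ 1 1 ∧ (δ 1 1).natAbs.Prime) ∧ ∃ l : ℕ, l.Prime ∧ δ 1 0 = N * l ∧
      Real.log l ≤ C * |((g 1 1 : ℤ) : ℝ)| := by
  obtain ⟨C, hC, hpr⟩ := exists_prime_exp
  refine ⟨C, hC, ?_⟩
  intro N hN φ ψ h h' g hg
  obtain ⟨c₀, hc₀⟩ := hg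
  have hdet := det_eq g
  rw [hc₀] at hdet
  have hN2 : (2 : ℤ) ≤ N := by exact_mod_cast hN
  have hd0 : g 1 1 ≠ 0 := by
    intro h0
    rw [h0, mul_zero, zero_sub] at hdet
    have h1 : (N : ℤ) ∣ 1 := ⟨-(g 0 1 * c₀), by linear_combination -hdet⟩
    have h2 := Int.le_of_dvd one_pos h1
    linarith
  have hcop : IsCoprime c₀ (((g 1 1).natAbs : ℕ) : ℤ) := by
    have h1 : IsCoprime c₀ (g 1 1) := ⟨-(g 0 1 * N), g 0 0, by linear_combination hdet⟩
    rw [Int.natCast_natAbs]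
    rcases abs_choice (g 1 1) with h2 | h2
    · rw [h2]; exact h1
    · rw [h2]; exact h1.neg_right
  obtain ⟨l, hl, hdvd, hlog⟩ := hpr (g 1 1).natAbs (Int.natAbs_pos.2 hd0) c₀ hcop
  have hdvd' : g 1 1 ∣ (l : ℤ) - c₀ := by
    rw [Int.natCast_natAbs, abs_dvd] at hdvd
    exact hdvd
  obtain ⟨k, hk⟩ := hdvd'
  -- right multiplication by a lower triangular parabolic element
  set U := mk 1 0 (N * k) 1 (by ring) with hU
  have hUG : InG N U := ⟨k, rfl⟩
  have hU0 : ∀ χ : SL(2, ℤ) → ℝ, IsCuspHom N χ → χ U = 0 := fun χ hχ =>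
    hχ.parabolic U hUG (by change ((1 : ℤ) + 1) ^ 2 = 4; norm_num)
  have hgG : InG N g := ⟨c₀, hc₀⟩
  set ε := g * U with hε
  have hεG : InG N ε := hgG.mul hUG
  have u00 : U 0 0 = 1 := rfl
  have u01 : U 0 1 = 0 := rfl
  have u10 : U 1 0 = N * k := rfl
  have u11 : U 1 1 = 1 := rfl
  have e10 : ε 1 0 = N * l := by
    rw [hε, mul10, u00, u10, hc₀]
    linear_combination (-(N : ℤ)) * hk
  have e11 : ε 1 1 = g 1 1 := by
    rw [hε, mul11, u01, u11]
    ring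
  have hε0 : ε 1 0 ≠ 0 := by
    rw [e10]
    have : (0 : ℤ) < l := by exact_mod_cast hl.pos
    positivity
  have hdetε := det_eq ε
  have hx0 : IsCoprime (ε 0 0) (ε 1 0) := ⟨ε 1 1, -ε 0 1, by linear_combination hdetε⟩
  have hx1 : IsCoprime (ε 1 1) (ε 1 0) := ⟨ε 0 0, -ε 0 1, by linear_combination hdetε⟩
  obtain ⟨i, hi0, hip⟩ := exists_prime_shift (m := 1) one_pos hε0 hx0 (by simp)
  obtain ⟨j, hj0, hjp⟩ := exists_prime_shift (m := 1) one_pos hε0 hx1 (by simp)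
  have hti := T_pow i
  have htj := T_pow j
  set δ := T ^ i * ε * T ^ j with hδ
  have f10 : δ 1 0 = ε 1 0 := by
    rw [hδ, mul10, mul10, mul11, hti.2.2.1, hti.2.2.2, htj.1, htj.2.2.1]
    ring
  have f00 : δ 0 0 = ε 0 0 + ((1 : ℕ) : ℤ) * i * ε 1 0 := by
    rw [hδ, mul00, mul00, mul01, hti.1, hti.2.1, htj.1, htj.2.2.1]
    push_cast
    ring
  have f11 : δ 1 1 = ε 1 1 + ((1 : ℕ) : ℤ) * j * ε 1 0 := by
    rw [hδ, mul11, mul10, mul11, hti.2.2.1, hti.2.2.2, htj.2.1, htj.2.2.2]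
    push_cast
    ring
  have hval : ∀ χ : SL(2, ℤ) → ℝ, IsCuspHom N χ → χ δ = χ g := by
    intro χ hχ
    rw [hδ, hχ.map_mul _ _ ((inG_T _).mul hεG) (inG_T _), hχ.map_mul _ _ (inG_T _) hεG,
      hχ.zero_of_lower hti.2.2.1, hχ.zero_of_lower htj.2.2.1, hε, hχ.map_mul _ _ hgG hUG,
      hU0 χ hχ]
    ring
  refine ⟨δ, ((inG_T _).mul hεG).mul (inG_T _), hval φ h, hval ψ h', ?_, ?_, l, hl, ?_, ?_⟩
  · rw [f00]; exact ⟨hi0, hip⟩
  · rw [f11]; exact ⟨hj0, hjp⟩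
  · rw [f10, e10]
  · have e : ((((g 1 1).natAbs : ℕ)) : ℝ) = |((g 1 1 : ℤ) : ℝ)| := by
      rw [Nat.cast_natAbs, Int.cast_abs]
    rw [← e]
    exact hlog

/-- The bound `C N ^ κ log r` for the coordinates of `H(γ)`, for the `γ ∈ Γ₀(N)` with rows `(p, q)`,
`(r, s)`, whose entries `p`, `s` and `r / N` are prime numbers. -/
def PrimeEntries : Prop :=
  ∃ κ : ℝ, 0 < κ ∧ ∃ C : ℝ, 0 < C ∧ ∀ N : ℕ, 1 ≤ N → ∀ a : ℕ → ℤ, IsNewform N a →
    ∀ Ω₁ Ω₂ : ℂ, IsBasis N a Ω₁ Ω₂ → ∀ p q r s : ℤ, p * s - q * r = 1 →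
      (0 < p ∧ p.natAbs.Prime) → (0 < s ∧ s.natAbs.Prime) →
      (∃ l : ℕ, l.Prime ∧ r = (N : ℤ) * l) →
      CoordBound a Ω₁ Ω₂ p q r s (C * (N : ℝ) ^ κ * Real.log (r : ℝ))

theorem prime_iff : EntriesAtMost 2 ↔ PrimeEntries := by
  have h0 := shimura_tfae_small
  constructor
  · intro h
    obtain ⟨κ, hκ, C, hC, h⟩ := (h0.out 0 3).1 h
    refine ⟨κ, hκ, 3 * C, by positivity, ?_⟩
    intro N hN a ha Ω₁ Ω₂ hb p q r s hdet _ _ hr m n hmn
    obtain ⟨l, hl, hrl⟩ := hr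
    have hN0 : (0 : ℝ) < N := by exact_mod_cast hN
    have hr2 : (2 : ℤ) ≤ r := by
      rw [hrl]
      have h1 : (2 : ℤ) ≤ l := by exact_mod_cast hl.two_le
      have h2 : (1 : ℤ) ≤ N := by exact_mod_cast hN
      nlinarith
    have h1 := h N hN a ha Ω₁ Ω₂ hb p q r s hdet ⟨l, hrl⟩ (by linarith) m n hmn
    have hr2' : (2 : ℝ) ≤ (r : ℝ) := by exact_mod_cast hr2
    have hlog : Real.log 2 ≤ Real.log (r : ℝ) := Real.log_le_log (by norm_num) hr2'
    have hl2 := Real.log_two_gt_d9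
    have habs : |(r : ℝ)| = r := abs_of_nonneg (by linarith)
    rw [habs] at h1
    have h3 : C * (N : ℝ) ^ κ * (1 + Real.log (r : ℝ)) ≤
        3 * C * (N : ℝ) ^ κ * Real.log (r : ℝ) := by
      calc C * (N : ℝ) ^ κ * (1 + Real.log (r : ℝ))
          ≤ C * (N : ℝ) ^ κ * (3 * Real.log (r : ℝ)) := by
            apply mul_le_mul_of_nonneg_left _ (by positivity)
            linarith
        _ = _ := by ring
    exact ⟨h1.1.trans h3, h1.2.trans h3⟩
  · rintro ⟨κ, hκ, C, hC, h⟩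
    obtain ⟨D, hD, hrep⟩ := exists_prime_rep
    refine ⟨κ + 2, by positivity, C * (1 + D), by positivity, ?_⟩
    intro N hN a ha Ω₁ Ω₂ hb p q r s hdet hr _ _ _ hs
    have hN0 : (0 : ℝ) < N := by exact_mod_cast hN
    have hN1 : (1 : ℝ) ≤ N := by exact_mod_cast hN
    have hKnn : 0 ≤ C * (N : ℝ) ^ κ := by positivity
    have hφ := isCuspHom ha.toIsForm (L₁ Ω₁ Ω₂)
    have hψ := isCuspHom ha.toIsForm (L₂ Ω₂)
    rcases Nat.lt_or_ge N 2 with h2 | h2
    · obtain rfl : N = 1 := by omega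
      apply coord_of hb hdet
      · have e := level_one hφ (mk p q r s hdet)
        rw [e, abs_zero]
        positivity
      · have e := level_one hψ (mk p q r s hdet)
        rw [e, abs_zero]
        positivity
    · obtain ⟨δ, hδG, e1, e2, h00, h11, l, hl, h10, hlog⟩ := hrep N h2 _ _ hφ hψ
        (mk p q r s hdet) hr
      have h3 := of_coord ha.toIsForm hb hδG
        (h N hN a ha Ω₁ Ω₂ hb _ _ _ _ (det_eq δ) h00 h11 ⟨l, hl, h10⟩)
      have h4 : Real.log ((δ 1 0 : ℤ) : ℝ) ≤ (1 + D) * (N : ℝ) ^ 2 := by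
        rw [h10]
        push_cast
        have hl0 : (0 : ℝ) < l := by exact_mod_cast hl.pos
        rw [Real.log_mul hN0.ne' hl0.ne']
        have h5 := Real.log_le_self hN0.le
        have h6 : |(((mk p q r s hdet) 1 1 : ℤ) : ℝ)| ≤ (N : ℝ) ^ 2 := by
          have : (mk p q r s hdet) 1 1 = s := rfl
          rw [this]
          exact_mod_cast hs
        have h7 : D * |(((mk p q r s hdet) 1 1 : ℤ) : ℝ)| ≤ D * (N : ℝ) ^ 2 :=
          mul_le_mul_of_nonneg_left h6 hD.le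
        have h8 : (N : ℝ) ≤ (N : ℝ) ^ 2 := by nlinarith
        linarith
      have h5 : C * (N : ℝ) ^ κ * Real.log ((δ 1 0 : ℤ) : ℝ) ≤
          C * (1 + D) * (N : ℝ) ^ (κ + 2) := by
        rw [Real.rpow_add hN0, Real.rpow_two]
        calc C * (N : ℝ) ^ κ * Real.log ((δ 1 0 : ℤ) : ℝ)
            ≤ C * (N : ℝ) ^ κ * ((1 + D) * (N : ℝ) ^ 2) :=
              mul_le_mul_of_nonneg_left h4 hKnn
          _ = _ := by ring
      rw [e1, e2] at h3
      exact coord_of hb hdet (h3.1.trans h5) (h3.2.trans h5)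

end Pool.Agent.Q213.SM
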